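import Pool.Agent.P.MP_99daa8_nt.Final

namespace Pool.Agent.P.MP_99daa8_nt.Old.DensityOne

open Pool.Agent.P.MP_99daa8_nt Filter Topology

/-- Equidistribution of modular symbols modulo `p ^ e` on `Σ_M` for a set of `M` of density one. -/
theorem result {N : ℕ} [NeZero N] (f : CuspForm (CongruenceSubgroup.Gamma0 N) 2)
    (Ω : ℂ) (ε : ℤ) (_hε : ε = 1 ∨ ε = -1) (p : ℕ) (hp : p.Prime)
    (hint : ∀ r : ℚ, IsPIntegral p (modSym f Ω ε r))
    (hunit : ∃ r : ℚ, N ∣ r.den ∧ ¬ CongMod p 1 (modSym f Ω ε r) 0)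
    (l : ℕ) (hl : l.Prime) (hlN : ¬ l ∣ N) (lam : ℤ) (hT : ∀ z, hecke l f z = lam * f z)
    (hlam : ¬ (p : ℤ) ∣ lam - (l + 1)) :
    ∃ S : Set ℕ, HasDensityOne S ∧ ∀ (e : ℕ) (a : ℤ),
      Tendsto (fun M => prob M fun r => CongMod p e (modSym f Ω ε r) a)
        (atTop ⊓ 𝓟 S) (𝓝 (1 / (p : ℝ) ^ e)) := by
  choose m hm hden using hint
  have hvec : ∀ v, (vec m v : ℂ) = sym2 f Ω ε v := by
    intro v
    unfold vec sym2
    split_ifs
    · simp
    · rw [hm]
  have H : RatSym N p l lam m := by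
    refine ⟨hden, fun γ hγ v hv => ?_, fun r => ?_, ?_⟩
    · have h := sym2_cocycle f Ω ε hγ hv
      rw [← hvec, ← hvec, ← hvec] at h
      have h' : vec m (act γ v) = vec m (act γ (1, 0)) + vec m v := by exact_mod_cast h
      exact h'
    · have h := modSym_hecke f Ω ε hl.pos lam hT r
      simp only [hm] at h
      exact_mod_cast h
    · obtain ⟨r, hr, hu⟩ := hunit
      refine ⟨r, hr, fun h => hu ⟨m r, hm r, hden r, ?_⟩⟩
      simpa using h
  obtain ⟨S, hS, hlim⟩ := H.main (Nat.pos_of_ne_zero (NeZero.ne N)) hp hl hlN hlam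
  refine ⟨S, hS, fun e a => ?_⟩
  have hiff : ∀ r : ℚ, CongMod p e (modSym f Ω ε r) a ↔
      red (p ^ e) (m r) = (a : ZMod (p ^ e)) := by
    intro r
    have hc : Nat.Coprime (m r).den (p ^ e) :=
      (((Nat.Prime.coprime_iff_not_dvd hp).mpr (hden r)).symm).pow_right e
    rw [red_eq_iff hc, Nat.cast_pow]
    constructor
    · rintro ⟨q, h1, _, h3⟩
      rw [hm] at h1
      have : m r = q := by exact_mod_cast h1
      rwa [this]
    · intro h
      exact ⟨m r, hm r, hden r, h⟩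
  simp only [hiff]
  exact hlim e a

end Pool.Agent.P.MP_99daa8_nt.Old.DensityOne
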